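import Pool.Agent.R972.OP.Stm4

/-!
# OP3-KLS: final assembly
-/

set_option autoImplicit false

namespace Pool.Agent.R394.OP3

open MeasureTheory Set Filter Topology
open scoped ENNReal InnerProductSpace
open Pool.Agent.W695.KH (Eu EU EV VV Sm Pot Uu)
open Pool.Agent.Y506.RG
open Pool.Agent.R972.OP (wR vh mh Cn S_ILC S_MKA S_VSG S_KLS3)

variable {n : ℕ}

/-- the unit vector in the direction of `(1, ..., 1)` -/
noncomputable def th (n : ℕ) : Eu (Fin n) := WithLp.toLp 2 fun _ => (Real.sqrt n)⁻¹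

theorem th_inner (x : Eu (Fin n)) : ⟪x, th n⟫_ℝ = (Real.sqrt n)⁻¹ * ∑ i, x i := by
  unfold th
  rw [PiLp.inner_apply, Finset.mul_sum]
  refine Finset.sum_congr rfl fun i _ => ?_
  simp

theorem th_norm (hn : 1 ≤ n) : ‖th n‖ = 1 := by
  have h0 : (0 : ℝ) < n := by exact_mod_cast hn
  have h1 : ‖th n‖ ^ 2 = 1 := by
    rw [EuclideanSpace.norm_sq_eq]
    unfold th
    simp only [Real.norm_eq_abs, sq_abs, Finset.sum_const, Finset.card_univ, Fintype.card_fin,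
      nsmul_eq_mul, inv_pow, Real.sq_sqrt h0.le]
    exact mul_inv_cancel₀ h0.ne'
  have h2 : (0 : ℝ) ≤ ‖th n‖ := norm_nonneg _
  nlinarith [sq_nonneg (‖th n‖ - 1)]

theorem EW_mul (w : Eu (Fin n) → ℝ) (r : ℝ) (v : Eu (Fin n) → ℝ) :
    EW w (fun x => r * v x) = r * EW w v := by
  unfold EW
  have : (fun x => r * v x * w x) = fun x => r * (v x * w x) := by
    funext x
    ring
  rw [this, integral_const_mul, mul_div_assoc]

theorem VW_mul (w : Eu (Fin n) → ℝ) (r : ℝ) (v : Eu (Fin n) → ℝ) :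
    VW w (fun x => r * v x) = r ^ 2 * VW w v := by
  unfold VW
  rw [EW_mul]
  have : (fun x => (r * v x) ^ 2) = fun x => r ^ 2 * v x ^ 2 := by
    funext x
    ring
  rw [this, EW_mul]
  ring

theorem var_th {w : Eu (Fin n) → ℝ} (hA : Adm w) :
    ProbabilityTheory.variance (fun x => ⟪x, th n⟫_ℝ) (pm w) =
      VW w (fun x => ⟪x, th n⟫_ℝ) := by
  have hpr := pm_prob hA
  have hm : Measurable fun x : Eu (Fin n) => ⟪x, th n⟫_ℝ := by fun_prop
  have i2 : Integrable (fun x : Eu (Fin n) => ⟪x, th n⟫_ℝ ^ 2 * w x) := by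
    refine Integrable.mono' (hA.int.const_mul (‖th n‖ ^ 2))
      ((hm.pow_const 2).mul hA.meas).aestronglyMeasurable (Eventually.of_forall fun x => ?_)
    have h0 := hA.nonneg x
    rw [Real.norm_eq_abs, abs_mul, abs_of_nonneg h0, abs_of_nonneg (sq_nonneg _)]
    have h1 : ⟪x, th n⟫_ℝ ^ 2 ≤ ‖th n‖ ^ 2 * (1 + ‖x‖ ^ 2) := by
      have h2 := abs_real_inner_le_norm x (th n)
      calc ⟪x, th n⟫_ℝ ^ 2 = |⟪x, th n⟫_ℝ| ^ 2 := (sq_abs _).symm
        _ ≤ (‖x‖ * ‖th n‖) ^ 2 := pow_le_pow_left₀ (abs_nonneg _) h2 2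
        _ ≤ _ := by nlinarith [sq_nonneg ‖th n‖]
    calc ⟪x, th n⟫_ℝ ^ 2 * w x ≤ ‖th n‖ ^ 2 * (1 + ‖x‖ ^ 2) * w x :=
          mul_le_mul_of_nonneg_right h1 h0
      _ = _ := by ring
  have hL2 : MemLp (fun y : Eu (Fin n) => ⟪y, th n⟫_ℝ) 2 (pm w) := by
    rw [memLp_two_iff_integrable_sq hm.aestronglyMeasurable]
    exact pm_integrable hA _ i2
  rw [ProbabilityTheory.variance_eq_sub hL2]
  have e1 : ∫ y, ((fun y : Eu (Fin n) => ⟪y, th n⟫_ℝ) ^ 2) y ∂(pm w) =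
      EW w fun x => ⟪x, th n⟫_ℝ ^ 2 := pm_int hA (fun y => ⟪y, th n⟫_ℝ ^ 2)
  have e2 : ∫ y, ⟪y, th n⟫_ℝ ∂(pm w) = EW w fun x => ⟪x, th n⟫_ℝ := pm_int hA _
  rw [e1, e2]
  rfl

theorem kls3 (h1 : S_ILC) (h2 : S_MKA) (h3 : S_VSG) : S_KLS3 := by
  obtain ⟨K, hK, H⟩ := h1
  have hK0 : 0 < K := by linarith
  refine ⟨1 / (2 * K), by positivity, ?_⟩
  intro n R hn ha ht h hLC hint hpos s hs hvar S hS
  have hn0 : (0 : ℝ) < n := by exact_mod_cast hn
  obtain ⟨hAdm, hV⟩ := h3 n R ha ht h hLC.nonneg hLC.meas hint hpos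
  have hprob := pm_prob hAdm
  have hvh : vh h ≤ s := by
    have h4 := hvar (th n) (th_norm hn)
    rw [var_th hAdm] at h4
    have e : (fun x : Eu (Fin n) => ⟪x, th n⟫_ℝ) = fun x => (Real.sqrt n)⁻¹ * ∑ i, x i :=
      funext th_inner
    rw [e, VW_mul, hV, inv_pow, Real.sq_sqrt hn0.le] at h4
    have e2 : (n : ℝ)⁻¹ * (n * vh h) = vh h := by
      field_simp
    rwa [e2] at h4
  have hs0 : 0 < Real.sqrt s := Real.sqrt_pos.2 hs
  have hB : 0 < K * Real.sqrt s := mul_pos hK0 hs0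
  have key := h2 (Fin n) (pm (wR R h)) (K * Real.sqrt s) hB (fun f L M hf hfb => by
    have e1 : ∫ x, f x ^ 2 ∂(pm (wR R h)) = EW (wR R h) fun x => f x ^ 2 := pm_int hAdm _
    have e2 : ∫ x, f x ∂(pm (wR R h)) = EW (wR R h) fun x => f x := pm_int hAdm _
    have e3 : ∫ x, ‖fderiv ℝ f x‖ ∂(pm (wR R h)) = EW (wR R h) fun x => ‖fderiv ℝ f x‖ :=
      pm_int hAdm _
    have h5 := H n R h hLC hint hpos hAdm.pos f L M hf hfb
    have h6 : 0 ≤ EW (wR R h) fun x => ‖fderiv ℝ f x‖ := by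
      rw [← e3]
      exact integral_nonneg fun x => norm_nonneg _
    rw [e1, e2, e3]
    have h7 : K * Real.sqrt (vh h) ≤ K * Real.sqrt s :=
      mul_le_mul_of_nonneg_left (Real.sqrt_le_sqrt hvh) hK0.le
    exact h5.trans (mul_le_mul_of_nonneg_right h7 h6)) S hS
  obtain ⟨I, hI⟩ : ∃ I : ℝ≥0∞, I = liminf (fun ε : ℝ =>
    (pm (wR R h) (Metric.thickening ε S) - pm (wR R h) S) / ENNReal.ofReal ε) (𝓝[>] 0) :=
    ⟨_, rfl⟩
  rw [← hI] at key ⊢
  obtain ⟨a, ha⟩ : ∃ a : ℝ≥0∞, a = pm (wR R h) S := ⟨_, rfl⟩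
  rw [← ha] at key ⊢
  have ha1 : a ≤ 1 := by rw [ha]; exact prob_le_one
  have hadd : a + (1 - a) = 1 := add_tsub_cancel_of_le ha1
  have hmin : min a (1 - a) ≤ 2 * (a * (1 - a)) := by
    rcases le_total a (1 - a) with h1 | h1
    · have h2 : 1 ≤ 2 * (1 - a) := by
        calc (1 : ℝ≥0∞) = a + (1 - a) := hadd.symm
          _ ≤ (1 - a) + (1 - a) := by gcongr
          _ = 2 * (1 - a) := (two_mul _).symm
      calc min a (1 - a) ≤ a * 1 := by rw [mul_one]; exact min_le_left _ _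
        _ ≤ a * (2 * (1 - a)) := by gcongr
        _ = _ := by ring
    · have h2 : 1 ≤ 2 * a := by
        calc (1 : ℝ≥0∞) = a + (1 - a) := hadd.symm
          _ ≤ a + a := by gcongr
          _ = 2 * a := (two_mul _).symm
      calc min a (1 - a) ≤ 1 * (1 - a) := by rw [one_mul]; exact min_le_right _ _
        _ ≤ 2 * a * (1 - a) := by gcongr
        _ = _ := by ring
  calc ENNReal.ofReal (1 / (2 * K) / Real.sqrt s) * min a (1 - a)
      ≤ ENNReal.ofReal (1 / (2 * K) / Real.sqrt s) * (2 * (a * (1 - a))) := by gcongr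
    _ ≤ ENNReal.ofReal (1 / (2 * K) / Real.sqrt s) *
        (2 * (ENNReal.ofReal (K * Real.sqrt s) * I)) := by gcongr
    _ = (ENNReal.ofReal (1 / (2 * K) / Real.sqrt s) * ENNReal.ofReal 2 *
        ENNReal.ofReal (K * Real.sqrt s)) * I := by
        rw [ENNReal.ofReal_ofNat]
        ring
    _ = I := by
        rw [← ENNReal.ofReal_mul (by positivity), ← ENNReal.ofReal_mul (by positivity)]
        have : 1 / (2 * K) / Real.sqrt s * 2 * (K * Real.sqrt s) = 1 := by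
          field_simp
        rw [this, ENNReal.ofReal_one, one_mul]

end Pool.Agent.R394.OP3
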